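import Pool.Agent.H31.DPD.Targets
import Pool.Agent.H70.DP.MD

/-!
MD: the mean level theorem (project DPD, `MP_c59857_nt`).
-/

set_option autoImplicit false

open Finset Filter Topology

namespace Pool.Agent.H95.DPD

open Pool.Agent.H91.LF (lz Bdd Mean sqw par)
open Pool.Agent.H24.T2 (Pset box cub)
open Pool.Agent.H31.DP Pool.Agent.H31.DPD
open Pool.Agent.H70.DP.MD (lz_sign lz_abs FF_abs ind_abs E_lin)

namespace MD

theorem GC_abs {l d : ℕ} (h : Fin l → ℕ) (p : ℕ) (s : Fin d → ℤ) (y : ℤ) : |GC h p s y| ≤ 1 := by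
  unfold GC
  rw [Finset.abs_prod]
  exact Finset.prod_le_one (fun i _ => abs_nonneg _) (fun i _ => FF_abs _ _ _)

/-- the function of the decoupling theorem -/
noncomputable def gg {l d : ℕ} (h : Fin l → ℕ) (p : ℕ) (ω : Fin (d + 2) → ℤ) : ℝ :=
  GC h p (par ω) (ω 0) * GC h p (par ω) (ω 1)

theorem gg_abs {l d : ℕ} (h : Fin l → ℕ) (p : ℕ) (ω : Fin (d + 2) → ℤ) : |gg h p ω| ≤ 1 := by
  unfold gg
  rw [abs_mul]
  exact mul_le_one₀ (GC_abs _ _ _ _) (abs_nonneg _) (GC_abs _ _ _ _)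

/-- the pattern -/
noncomputable def pat {d : ℕ} (w : Fin (d + 2) → ℤ) :
    (Finset (Fin d) → SignType) × (Finset (Fin d) → SignType) :=
  (fun I => SignType.sign (lz (w 0 + sI (par w) I)),
    fun I => SignType.sign (lz (w 1 + sI (par w) I)))

theorem pat0 {d : ℕ} {w w' : Fin (d + 2) → ℤ} (h : pat w = pat w') (I : Finset (Fin d)) :
    lz (w 0 + sI (par w) I) = lz (w' 0 + sI (par w') I) := by
  have h1 := congrFun (congrArg Prod.fst h) I
  simp only [pat] at h1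
  rw [lz_sign (w 0 + _), h1, ← lz_sign]

theorem pat1 {d : ℕ} {w w' : Fin (d + 2) → ℤ} (h : pat w = pat w') (I : Finset (Fin d)) :
    lz (w 1 + sI (par w) I) = lz (w' 1 + sI (par w') I) := by
  have h1 := congrFun (congrArg Prod.snd h) I
  simp only [pat] at h1
  rw [lz_sign (w 1 + _), h1, ← lz_sign]

/-- the direction -/
def dir (d : ℕ) : Fin (d + 2) → ℤ := Fin.cons 1 (Fin.cons 1 fun _ => 0)

theorem dir0 {d : ℕ} (w : Fin (d + 2) → ℤ) (j : ℤ) : (w + j • dir d) 0 = w 0 + j := by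
  simp [dir]

theorem dir1 {d : ℕ} (w : Fin (d + 2) → ℤ) (j : ℤ) : (w + j • dir d) 1 = w 1 + j := by
  have : dir d 1 = 1 := rfl
  simp [this]

theorem dir2 {d : ℕ} (w : Fin (d + 2) → ℤ) (j : ℤ) : par (w + j • dir d) = par w := by
  funext i
  have : dir d i.succ.succ = 0 := rfl
  simp [par, this]

theorem par_add {d : ℕ} (w k : Fin (d + 2) → ℤ) : par (w + k) = par w + par k := rfl

theorem sI_add {d : ℕ} (s t : Fin d → ℤ) (I : Finset (Fin d)) :
    sI (s + t) I = sI s I + sI t I := by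
  unfold sI
  simp [Finset.sum_add_distrib]

/-- the place of a vertex -/
theorem place {d : ℕ} (p : ℕ) (k : Fin (d + 2) → ℤ) (hk : ∀ i, 0 ≤ k i ∧ k i < p) (b : Fin (d + 2))
    (I : Finset (Fin d)) : ∃ c : ℕ, (c : ℤ) = k b + sI (par k) I ∧ c < (d + 1) * p := by
  have h1 : 0 ≤ sI (par k) I := Finset.sum_nonneg fun i _ => (hk _).1
  have h2 : sI (par k) I ≤ (d : ℤ) * p := by
    have h3 : sI (par k) I ≤ ∑ i ∈ I, (p : ℤ) := Finset.sum_le_sum fun i _ => (hk _).2.le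
    rw [Finset.sum_const, nsmul_eq_mul] at h3
    refine h3.trans (mul_le_mul_of_nonneg_right ?_ (by positivity))
    have h4 := Finset.card_le_univ I
    rw [Fintype.card_fin] at h4
    exact_mod_cast h4
  have h5 := hk b
  refine ⟨(k b + sI (par k) I).toNat, Int.toNat_of_nonneg (by omega), ?_⟩
  have h6 : ((k b + sI (par k) I).toNat : ℤ) = k b + sI (par k) I :=
    Int.toNat_of_nonneg (by omega)
  have h7 : ((k b + sI (par k) I).toNat : ℤ) < (((d + 1) * p : ℕ) : ℤ) := by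
    rw [h6]
    push_cast
    linarith
  exact_mod_cast h7

theorem block {l d : ℕ} (h : Fin l → ℕ) (H p m : ℕ) (hH : ∀ i, h i ≤ H) (hp : p ≤ 2 ^ (m + 1))
    (ω ω' : Fin (d + 2) → ℤ)
    (hx : ∀ j : ℕ, j < (2 * (H + (d + 1))) * 2 ^ m →
      pat (ω + (j : ℤ) • dir d) = pat (ω' + (j : ℤ) • dir d))
    (k : Fin (d + 2) → ℤ) (hk : ∀ i, 0 ≤ k i ∧ k i < p) : gg h p (ω + k) = gg h p (ω' + k) := by
  have hb : ∀ c : ℕ, c < (d + 1) * p → ∀ i : Fin l,
      c + p * h i < (2 * (H + (d + 1))) * 2 ^ m := by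
    intro c hc i
    calc c + p * h i < (d + 1) * p + p * H := by
          have := Nat.mul_le_mul_left p (hH i)
          omega
      _ = p * (H + (d + 1)) := by ring
      _ ≤ 2 ^ (m + 1) * (H + (d + 1)) := Nat.mul_le_mul_right _ hp
      _ = (2 * (H + (d + 1))) * 2 ^ m := by rw [pow_succ]; ring
  have f0 : GC h p (par (ω + k)) ((ω + k) 0) = GC h p (par (ω' + k)) ((ω' + k) 0) := by
    unfold GC
    refine Finset.prod_congr rfl fun I _ => ?_
    unfold FF
    refine Finset.prod_congr rfl fun i _ => ?_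
    obtain ⟨c, hc, hc2⟩ := place p k hk 0 I
    have h1 := pat0 (hx _ (hb c hc2 i)) I
    rw [dir0, dir0, dir2, dir2] at h1
    have h2 : (ω + k) 0 + sI (par (ω + k)) I + (p : ℤ) * (h i : ℤ) =
        ω 0 + ((c + p * h i : ℕ) : ℤ) + sI (par ω) I := by
      rw [par_add, sI_add]
      push_cast
      rw [hc]
      simp only [Pi.add_apply]
      ring
    have h3 : (ω' + k) 0 + sI (par (ω' + k)) I + (p : ℤ) * (h i : ℤ) =
        ω' 0 + ((c + p * h i : ℕ) : ℤ) + sI (par ω') I := by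
      rw [par_add, sI_add]
      push_cast
      rw [hc]
      simp only [Pi.add_apply]
      ring
    rw [h2, h3]
    exact h1
  have f1 : GC h p (par (ω + k)) ((ω + k) 1) = GC h p (par (ω' + k)) ((ω' + k) 1) := by
    unfold GC
    refine Finset.prod_congr rfl fun I _ => ?_
    unfold FF
    refine Finset.prod_congr rfl fun i _ => ?_
    obtain ⟨c, hc, hc2⟩ := place p k hk 1 I
    have h1 := pat1 (hx _ (hb c hc2 i)) I
    rw [dir1, dir1, dir2, dir2] at h1
    have h2 : (ω + k) 1 + sI (par (ω + k)) I + (p : ℤ) * (h i : ℤ) =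
        ω 1 + ((c + p * h i : ℕ) : ℤ) + sI (par ω) I := by
      rw [par_add, sI_add]
      push_cast
      rw [hc]
      simp only [Pi.add_apply]
      ring
    have h3 : (ω' + k) 1 + sI (par (ω' + k)) I + (p : ℤ) * (h i : ℤ) =
        ω' 1 + ((c + p * h i : ℕ) : ℤ) + sI (par ω') I := by
      rw [par_add, sI_add]
      push_cast
      rw [hc]
      simp only [Pi.add_apply]
      ring
    rw [h2, h3]
    exact h1
  unfold gg
  rw [f0, f1]

/-- the functions in the decoupling theorem -/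
noncomputable def fS {l d : ℕ} (h : Fin l → ℕ) (p : ℕ) (S : Finset (Fin (d + 2)))
    (ω : Fin (d + 2) → ℤ) : ℝ :=
  (p : ℝ) ^ S.card * (ind (∀ i ∈ S, (p : ℤ) ∣ ω i) * gg h p ω)

theorem fS_bdd {l d : ℕ} (h : Fin l → ℕ) (p : ℕ) (S : Finset (Fin (d + 2))) :
    Bdd (fS h p S) := by
  refine ⟨(p : ℝ) ^ S.card, fun ω => ?_⟩
  unfold fS
  rw [abs_mul, abs_mul, abs_of_nonneg (by positivity : (0 : ℝ) ≤ (p : ℝ) ^ S.card)]
  have h1 : |ind (∀ i ∈ S, (p : ℤ) ∣ ω i)| * |gg h p ω| ≤ 1 :=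
    mul_le_one₀ (ind_abs _) (abs_nonneg _) (gg_abs h p ω)
  have h2 : (0 : ℝ) ≤ (p : ℝ) ^ S.card := by positivity
  nlinarith

/-- the coordinates of the sides -/
def S0 (d : ℕ) : Finset (Fin (d + 2)) :=
  Finset.univ.map ⟨fun i : Fin d => i.succ.succ, fun _ _ hij =>
    Fin.succ_injective _ (Fin.succ_injective _ hij)⟩

theorem mem_S0 {d : ℕ} {j : Fin (d + 2)} : j ∈ S0 d ↔ ∃ i : Fin d, i.succ.succ = j := by
  unfold S0
  rw [Finset.mem_map]
  constructor
  · rintro ⟨i, -, rfl⟩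
    exact ⟨i, rfl⟩
  · rintro ⟨i, rfl⟩
    exact ⟨i, Finset.mem_univ i, rfl⟩

theorem card_S0 (d : ℕ) : (S0 d).card = d := by
  simp [S0]

theorem zero_notMem (d : ℕ) : (0 : Fin (d + 2)) ∉ S0 d := by
  rw [mem_S0]
  rintro ⟨i, hi⟩
  exact Fin.succ_ne_zero _ hi

theorem one_notMem (d : ℕ) : (1 : Fin (d + 2)) ∉ S0 d := by
  rw [mem_S0]
  rintro ⟨i, hi⟩
  have h1 : i.succ.succ = (0 : Fin (d + 1)).succ := hi
  exact Fin.succ_ne_zero _ (Fin.succ_injective _ h1)

theorem zero_notMem' (d : ℕ) : (0 : Fin (d + 2)) ∉ insert 1 (S0 d) := by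
  rw [Finset.mem_insert, not_or]
  exact ⟨fun h => Fin.succ_ne_zero (0 : Fin (d + 1)) h.symm, zero_notMem d⟩

theorem all_S0 {d : ℕ} (p : ℕ) (ω : Fin (d + 2) → ℤ) :
    (∀ i ∈ S0 d, (p : ℤ) ∣ ω i) ↔ ∀ i : Fin d, (p : ℤ) ∣ par ω i := by
  constructor
  · intro h i
    exact h _ (mem_S0.2 ⟨i, rfl⟩)
  · intro h j hj
    obtain ⟨i, rfl⟩ := mem_S0.1 hj
    exact h i

theorem dc_eq {l d : ℕ} (h : Fin l → ℕ) (p : ℕ) (ω : Fin (d + 2) → ℤ) : dc h p ω =
    fS h p (insert 0 (insert 1 (S0 d))) ω - fS h p (insert 0 (S0 d)) ω -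
      fS h p (insert 1 (S0 d)) ω + fS h p (S0 d) ω := by
  have c1 : (insert 0 (insert 1 (S0 d))).card = d + 2 := by
    rw [Finset.card_insert_of_notMem (zero_notMem' d),
      Finset.card_insert_of_notMem (one_notMem d), card_S0]
  have c2 : (insert 0 (S0 d)).card = d + 1 := by
    rw [Finset.card_insert_of_notMem (zero_notMem d), card_S0]
  have c3 : (insert 1 (S0 d)).card = d + 1 := by
    rw [Finset.card_insert_of_notMem (one_notMem d), card_S0]
  unfold dc fS bal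
  rw [c1, c2, c3, card_S0]
  simp only [Finset.forall_mem_insert, all_S0]
  change _ * (_ * gg h p ω) = _
  by_cases h0 : (p : ℤ) ∣ ω 0 <;> by_cases h1 : (p : ℤ) ∣ ω 1 <;>
    by_cases h2 : ∀ i : Fin d, (p : ℤ) ∣ par ω i <;>
    simp only [ind, h0, h1, h2, and_true, and_false, if_true, if_false,
      implies_true, and_self] <;> ring

end MD

open MD in
theorem pf_MD (hDS : StatementDS) : P_MD := by
  obtain ⟨c₀, hc₀, H⟩ := hDS
  refine ⟨c₀, hc₀, ?_⟩
  intro d l h M θ m₀ hθ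
  have hsup : ∀ i, h i ≤ Finset.univ.sup h := fun i => Finset.le_sup (Finset.mem_univ i)
  obtain ⟨m, hm, hcard, hD⟩ := H (d + 2) M
    ((Finset (Fin d) → SignType) × (Finset (Fin d) → SignType)) inferInstance pat (dir d)
    (2 * (Finset.univ.sup h + (d + 1))) (θ / 4) m₀ (by positivity) (by positivity)
  refine ⟨m, hm, hcard, ?_⟩
  have key : ∀ S : Finset (Fin (d + 2)),
      ∑ p ∈ Pset 1 m, |M.E (fS h p S) - M.E (gg h p)| ≤ θ / 4 * (Pset 1 m).card := by
    intro S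
    refine hD S (fun p => gg h p) (fun p _ ω => gg_abs h p ω) ?_
    intro p hp ω ω' hx k hk
    unfold Pool.Agent.H24.T2.Pset at hp
    rw [Finset.mem_filter, Finset.mem_Ioc] at hp
    exact block h _ p m hsup hp.1.2 ω ω' hx k hk
  have step : ∀ p : ℕ, |M.E (dc h p)| ≤
      |M.E (fS h p (insert 0 (insert 1 (S0 d)))) - M.E (gg h p)| +
      |M.E (fS h p (insert 0 (S0 d))) - M.E (gg h p)| +
      |M.E (fS h p (insert 1 (S0 d))) - M.E (gg h p)| +
      |M.E (fS h p (S0 d)) - M.E (gg h p)| := by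
    intro p
    have e1 : dc h p = fun ω => fS h p (insert 0 (insert 1 (S0 d))) ω -
        fS h p (insert 0 (S0 d)) ω - fS h p (insert 1 (S0 d)) ω + fS h p (S0 d) ω := by
      funext ω; exact dc_eq h p ω
    rw [e1, E_lin M _ _ _ _ (fS_bdd _ _ _) (fS_bdd _ _ _) (fS_bdd _ _ _) (fS_bdd _ _ _)]
    have e2 : M.E (fS h p (insert 0 (insert 1 (S0 d)))) - M.E (fS h p (insert 0 (S0 d))) -
        M.E (fS h p (insert 1 (S0 d))) + M.E (fS h p (S0 d)) =
        (M.E (fS h p (insert 0 (insert 1 (S0 d)))) - M.E (gg h p)) -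
        (M.E (fS h p (insert 0 (S0 d))) - M.E (gg h p)) -
        (M.E (fS h p (insert 1 (S0 d))) - M.E (gg h p)) +
        (M.E (fS h p (S0 d)) - M.E (gg h p)) := by ring
    rw [e2]
    refine (abs_add_le _ _).trans (add_le_add ?_ le_rfl)
    refine (abs_sub _ _).trans (add_le_add ?_ le_rfl)
    exact abs_sub _ _
  calc ∑ p ∈ Pset 1 m, |M.E (dc h p)|
      ≤ ∑ p ∈ Pset 1 m, (|M.E (fS h p (insert 0 (insert 1 (S0 d)))) - M.E (gg h p)| +
      |M.E (fS h p (insert 0 (S0 d))) - M.E (gg h p)| +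
      |M.E (fS h p (insert 1 (S0 d))) - M.E (gg h p)| +
      |M.E (fS h p (S0 d)) - M.E (gg h p)|) := Finset.sum_le_sum fun p _ => step p
    _ ≤ θ * (Pset 1 m).card := by
        rw [Finset.sum_add_distrib, Finset.sum_add_distrib, Finset.sum_add_distrib]
        have k1 := key (insert 0 (insert 1 (S0 d)))
        have k2 := key (insert 0 (S0 d))
        have k3 := key (insert 1 (S0 d))
        have k4 := key (S0 d)
        linarith

end Pool.Agent.H95.DPD
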